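import Pool.Agent.Helper88.GU.St

/-!
# Project GU, second hand-in: module WE (the first stage)
-/

set_option autoImplicit false

namespace Pool.Agent.Helper79.GU2

open Polynomial
open Pool.Agent.Helper91.GU
open Pool.Agent.Helper88.GU

universe u

theorem hWE (hB7 : Pool.Agent.Helper91.GU.StB7.{u}) (hWD : StWD.{u}) :
    Pool.Agent.Helper88.GU.StWE.{u} := by
  intro R A _ _ _ _ G m x e hS 𝔨 hSup s₀ Nh hH E s v₀ c hUm hv hc hlast
  have h7 := ((hB7 A A (RingHom.id A)).1 (Unit ⊕ Fin (s + 1)))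
  obtain ⟨hrefl, _, htrans, _, hUmREq, _, _⟩ := h7
  set D : ℕ := (G.Γ v₀).natDegree + ∑ j, (G.Γ (c j)).natDegree with hD
  have key : ∀ k : ℕ, k ≤ s → ∃ (v₀' : A) (c' : Fin (s + 1) → A) (N : Fin s → ℕ),
      REq (row v₀ c) (row v₀' c') ∧ Inv1 G x 𝔨 s₀ D E s k v₀' c' N := by
    intro k
    induction k with
    | zero =>
      intro _
      refine ⟨v₀, c, fun _ => 0, hrefl _, hv, hc, hlast, ?_, ?_, ?_, ?_⟩
      · exact Nat.le_add_right _ _
      · intro j _
        have h1 : (G.Γ (c j)).natDegree ≤ ∑ j, (G.Γ (c j)).natDegree :=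
          Finset.single_le_sum (f := fun j => (G.Γ (c j)).natDegree)
            (fun _ _ => Nat.zero_le _) (Finset.mem_univ j)
        exact h1.trans (Nat.le_add_left _ _)
      · intro j hj
        exact absurd hj (Nat.not_lt_zero _)
      · intro P hP _ _ _
        refine ⟨by simp, fun hs => ?_⟩
        have := hH.pos P hP hs
        simpa using this
    | succ k ih =>
      intro hk
      obtain ⟨v', c', N, hR, hI⟩ := ih (by omega)
      obtain ⟨v'', c'', N', hR', hI'⟩ := hWD R A G m x e hS 𝔨 hSup s₀ D E s k (by omega) v' c' N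
        (hUmREq _ _ hR hUm) hI
      exact ⟨v'', c'', N', htrans _ _ _ hR hR', hI'⟩
  obtain ⟨v', c', N, hR, hI⟩ := key s le_rfl
  exact ⟨D, v', c', N, hR, hI⟩

end Pool.Agent.Helper79.GU2
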